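import Pool.Agent.H224R2.Mah.Defs

/-!
Task C3: lower bound for `V(t)` for small `t`.
-/

namespace Pool.Agent.H224R2.Mah

open MeasureTheory Set Filter Topology
open scoped ENNReal RealInnerProductSpace

namespace C3

theorem psd_rank {n : ℕ} (a : Fin n → ℝ) {s : ℝ} (hs : 0 ≤ s) :
    (s • Matrix.vecMulVec a a).PosSemidef := by
  have h : (Matrix.vecMulVec a (star a)).PosSemidef := Matrix.posSemidef_vecMulVec_self_star a
  rw [show star a = a from rfl] at h
  exact h.smul hs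

theorem det_rank {n : ℕ} {A : Matrix (Fin n) (Fin n) ℝ} (hA : A.PosSemidef) (a : Fin n → ℝ)
    {s : ℝ} (hs : 0 ≤ s) : A.det ≤ (A + s • Matrix.vecMulVec a a).det := by
  by_cases h : A.det = 0
  · rw [h]
    exact (hA.add (psd_rank a hs)).det_nonneg
  · have hP : A.PosDef := hA.posDef_iff_det_ne_zero.2 h
    have hu : IsUnit A.det := isUnit_iff_ne_zero.2 h
    have e : s • Matrix.vecMulVec a a =
        Matrix.replicateCol Unit (s • a) * Matrix.replicateRow Unit a := by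
      rw [← Matrix.vecMulVec_eq Unit]
      ext i j
      simp [Matrix.vecMulVec_apply, mul_assoc]
    rw [e, Matrix.det_add_replicateCol_mul_replicateRow hu]
    have h1 : (1 + Matrix.replicateRow Unit a * A⁻¹ * Matrix.replicateCol Unit (s • a)).det =
        1 + s * (a ⬝ᵥ (A⁻¹.mulVec a)) := by
      rw [Matrix.det_unique, Matrix.mul_assoc]
      simp only [Matrix.add_apply, Matrix.one_apply_eq, Matrix.mul_apply,
        Matrix.replicateRow_apply, Matrix.replicateCol_apply, dotProduct, Matrix.mulVec,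
        Pi.smul_apply, smul_eq_mul, Finset.mul_sum]
      congr 1
      refine Finset.sum_congr rfl fun i _ => Finset.sum_congr rfl fun j _ => ?_
      ring
    have h2 : 0 ≤ a ⬝ᵥ (A⁻¹.mulVec a) := by
      have := hP.posSemidef.inv.dotProduct_mulVec_nonneg a
      rwa [show star a = a from rfl] at this
    rw [h1]
    have h3 : 0 ≤ A.det := hA.det_nonneg
    nlinarith [mul_nonneg h3 (mul_nonneg hs h2)]

theorem det_sum {n : ℕ} {κ : Type} (T : Finset κ) {A : Matrix (Fin n) (Fin n) ℝ}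
    (hA : A.PosSemidef) (c : κ → Fin n → ℝ) (s : κ → ℝ) (hs : ∀ j, 0 ≤ s j) :
    (A + ∑ j ∈ T, s j • Matrix.vecMulVec (c j) (c j)).PosSemidef ∧
      A.det ≤ (A + ∑ j ∈ T, s j • Matrix.vecMulVec (c j) (c j)).det := by
  classical
  induction T using Finset.induction_on with
  | empty => simpa using hA
  | insert j T hj ih =>
    rw [Finset.sum_insert hj, add_comm (s j • Matrix.vecMulVec (c j) (c j)), ← add_assoc]
    exact ⟨ih.1.add (psd_rank _ (hs j)), ih.2.trans (det_rank ih.1 _ (hs j))⟩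

theorem basis_eq {n : ℕ} (b : Fin n → Fin n → ℝ) (s : Fin n → ℝ) :
    ∑ k, s k • Matrix.vecMulVec (b k) (b k) =
      (Matrix.of b).transpose * (Matrix.diagonal s * Matrix.of b) := by
  ext i j
  rw [Matrix.sum_apply, Matrix.mul_apply]
  refine Finset.sum_congr rfl fun k _ => ?_
  rw [Matrix.diagonal_mul]
  simp only [Matrix.smul_apply, Matrix.vecMulVec_apply, Matrix.transpose_apply, Matrix.of_apply,
    smul_eq_mul]
  ring

theorem det_mat {n : ℕ} {κ : Type} [Fintype κ] (b : Fin n → Fin n → ℝ) (c : κ → Fin n → ℝ)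
    (s : Fin n ⊕ κ → ℝ) (hs : ∀ j, 0 ≤ s j) :
    (Matrix.of b).det ^ 2 * ∏ k, s (Sum.inl k) ≤ (mat s (Sum.elim b c)).det := by
  unfold mat
  rw [Fintype.sum_sum_type]
  simp only [Sum.elim_inl, Sum.elim_inr]
  have hpsd : (∑ k, s (Sum.inl k) • Matrix.vecMulVec (b k) (b k)).PosSemidef := by
    have := (det_sum Finset.univ (A := (0 : Matrix (Fin n) (Fin n) ℝ)) Matrix.PosSemidef.zero b
      (fun k => s (Sum.inl k)) (fun k => hs _)).1
    rwa [zero_add] at this
  have h1 := (det_sum Finset.univ hpsd c (fun j => s (Sum.inr j)) (fun j => hs _)).2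
  refine le_trans (le_of_eq ?_) h1
  rw [basis_eq, Matrix.det_mul, Matrix.det_mul, Matrix.det_transpose, Matrix.det_diagonal]
  ring

theorem coef {n : ℕ} (b : Fin n → Fin n → ℝ) (hb : (Matrix.of b).det ≠ 0) (c : Fin n → ℝ) :
    ∃ q : Fin n → ℝ, ∀ z : Fin n → ℂ, uu c z = ∑ k, (q k : ℂ) * uu (b k) z := by
  refine ⟨Matrix.vecMul c (Matrix.of b)⁻¹, fun z => ?_⟩
  have h1 : Matrix.vecMul (Matrix.vecMul c (Matrix.of b)⁻¹) (Matrix.of b) = c := by
    rw [Matrix.vecMul_vecMul, Matrix.nonsing_inv_mul _ (isUnit_iff_ne_zero.2 hb), Matrix.vecMul_one]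
  set q := Matrix.vecMul c (Matrix.of b)⁻¹ with hq
  have h2 : ∀ l, c l = ∑ k, q k * b k l := by
    intro l
    conv_lhs => rw [← h1]
    rfl
  unfold uu
  simp only [Finset.mul_sum]
  rw [Finset.sum_comm]
  refine Finset.sum_congr rfl fun l _ => ?_
  rw [h2 l]
  push_cast
  rw [Finset.sum_mul]
  refine Finset.sum_congr rfl fun k _ => ?_
  ring

theorem uu_continuous {n : ℕ} (a : Fin n → ℝ) : Continuous (uu a) := by
  unfold uu
  fun_prop

theorem isOpen_R {n : ℕ} {P : Set ℂ} {S : ℕ → ℂ → ℝ} (hD : Dom P S) {m : ℕ} (hm : 2 ≤ m) (s : ℝ)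
    (g : Fin n → (Fin n → ℂ) → ℂ) (hg : ∀ k, Continuous (g k)) :
    IsOpen {z : Fin n → ℂ | (∀ k, g k z ∈ P) ∧ ∑ k, S m (g k z) < s} := by
  have hO : IsOpen {z : Fin n → ℂ | ∀ k, g k z ∈ P} := by
    have : {z : Fin n → ℂ | ∀ k, g k z ∈ P} = ⋂ k, (g k) ⁻¹' P := by
      ext z
      simp
    rw [this]
    exact isOpen_iInter_of_finite fun k => hD.isOpen.preimage (hg k)
  have hS : ContinuousOn (S m) P := (hD.psh m hm).smooth.continuousOn
  have hc : ContinuousOn (fun z : Fin n → ℂ => ∑ k, S m (g k z)) {z | ∀ k, g k z ∈ P} := by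
    refine continuousOn_finsetSum _ fun k _ => ?_
    exact hS.comp (hg k).continuousOn (fun z hz => hz k)
  exact hc.isOpen_inter_preimage hO isOpen_Iio

end C3

open C3 in
/-- C3. Lower bound for `V(t)`, `t → 0`. -/
theorem C3_base_of
    (hC1 : ∀ {P : Set ℂ} {S : ℕ → ℂ → ℝ} (_ : Dom P S) (n : ℕ) {m : ℕ} (_ : 2 ≤ m)
      {t : ℝ} (_ : 0 < t) (_ : t ≤ 1),
      ∫⁻ u in {u : Fin n → ℂ | (∀ k, u k ∈ P) ∧ ∑ k, S m (u k) < t},
        ∏ k, ENNReal.ofReal (lap (S m) (u k)) =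
        ENNReal.ofReal ((4 * Real.pi * m) ^ n * t ^ n / n.factorial))
    (hC2 : ∀ {n : ℕ} (b : Fin n → Fin n → ℝ) (_ : (Matrix.of b).det ≠ 0)
      (F : (Fin n → ℂ) → ℝ≥0∞),
      ∫⁻ z, F (fun k => uu (b k) z) * ENNReal.ofReal ((Matrix.of b).det ^ 2) = ∫⁻ u, F u)
    {n : ℕ} {P : Set ℂ} {S : ℕ → ℂ → ℝ} (hD : Dom P S) {κ : Type} [Fintype κ]
    (b : Fin n → Fin n → ℝ) (hb : (Matrix.of b).det ≠ 0) (c : κ → Fin n → ℝ) {m : ℕ} (hm : 2 ≤ m)
    (ε : ℝ) (hε : 0 < ε) (hε1 : ε < 1) :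
    ∃ t : ℝ, 0 < t ∧ t < 1 ∧ ENNReal.ofReal ((1 - ε) * ((4 * Real.pi * m) ^ n * t ^ n / n.factorial)) ≤
      VV P (Sum.elim (fun _ => S m) (fun _ => S (m + 1))) (Sum.elim b c) t := by
  classical
  -- constants
  choose q hq using fun j => coef b hb (c j)
  obtain ⟨r0, hr0, hball⟩ := Metric.isOpen_iff.1 hD.isOpen 0 hD.zero_mem
  set C : ℝ := 1 + ∑ j, ∑ k, |q j k| with hC
  have hC1' : 1 ≤ C := by
    have : 0 ≤ ∑ j, ∑ k, |q j k| := Finset.sum_nonneg fun j _ => Finset.sum_nonneg fun k _ =>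
      abs_nonneg _
    linarith
  have hC0 : 0 < C := by linarith
  have hqC : ∀ j, ∑ k, |q j k| ≤ C := by
    intro j
    have : ∑ k, |q j k| ≤ ∑ j, ∑ k, |q j k| :=
      Finset.single_le_sum (f := fun j => ∑ k, |q j k|)
        (fun j _ => Finset.sum_nonneg fun k _ => abs_nonneg _) (Finset.mem_univ j)
    linarith
  set d : ℝ := ε / (n + 1) with hd
  have hd0 : 0 < d := by positivity
  have hd1 : d < 1 := by
    rw [hd, div_lt_one (by positivity)]
    have : (0 : ℝ) ≤ n := Nat.cast_nonneg n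
    linarith
  have hbern : 1 - ε ≤ (1 - d) ^ n := by
    have h1 := one_add_mul_le_pow (a := -d) (by linarith) n
    have h2 : (n : ℝ) * d ≤ ε := by
      rw [hd, mul_div_assoc', div_le_iff₀ (by positivity)]
      nlinarith
    have h3 : (1 + -d) ^ n = (1 - d) ^ n := by rw [← sub_eq_add_neg]
    rw [h3] at h1
    linarith
  set D : ℝ := d / ((Fintype.card κ + 1) * (2 * C) ^ (2 * m + 2)) with hDdef
  have hD0 : 0 < D := by positivity
  set τ : ℝ := min (1 / 2) (min (r0 / (2 * C)) D) with hτ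
  have hτ0 : 0 < τ := by positivity
  have hτ1 : τ ≤ 1 / 2 := min_le_left _ _
  have hτ2 : τ ≤ r0 / (2 * C) := (min_le_right _ _).trans (min_le_left _ _)
  have hτ3 : τ ≤ D := (min_le_right _ _).trans (min_le_right _ _)
  set t : ℝ := τ ^ (2 * m) with ht
  have ht0 : 0 < t := by positivity
  have ht1 : t < 1 := pow_lt_one₀ hτ0.le (by linarith) (by omega)
  refine ⟨t, ht0, ht1, ?_⟩
  set s : ℝ := (1 - d) * t with hs
  have hs0 : 0 < s := mul_pos (by linarith) ht0
  have hst : s ≤ t := by nlinarith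
  -- the region
  set R : Set (Fin n → ℂ) := {z | (∀ k, uu (b k) z ∈ P) ∧ ∑ k, S m (uu (b k) z) < s} with hR
  set R' : Set (Fin n → ℂ) := {u | (∀ k, u k ∈ P) ∧ ∑ k, S m (u k) < s} with hR'
  have hRo : IsOpen R := isOpen_R hD hm s (fun k z => uu (b k) z) (fun k => uu_continuous _)
  have hRo' : IsOpen R' := isOpen_R hD hm s (fun k z => z k) (fun k => continuous_apply k)
  have hbnd : ∀ z ∈ R, ∀ k, ‖uu (b k) z‖ ≤ τ := by
    intro z hz k
    have h1 := hD.low m hm _ (hz.1 k)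
    have h2 : S m (uu (b k) z) ≤ ∑ k, S m (uu (b k) z) :=
      Finset.single_le_sum (f := fun k => S m (uu (b k) z))
        (fun k _ => (hD.psh m hm).nonneg _ (hz.1 k)) (Finset.mem_univ k)
    have h3 : ‖uu (b k) z‖ ^ (2 * m) ≤ τ ^ (2 * m) := by
      have := hz.2
      linarith
    exact le_of_pow_le_pow_left₀ (by omega) hτ0.le h3
  have hbnd2 : ∀ z ∈ R, ∀ j, ‖uu (c j) z‖ ≤ C * τ := by
    intro z hz j
    rw [hq j z]
    calc ‖∑ k, (q j k : ℂ) * uu (b k) z‖ ≤ ∑ k, ‖(q j k : ℂ) * uu (b k) z‖ := norm_sum_le _ _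
      _ ≤ ∑ k, |q j k| * τ := by
          refine Finset.sum_le_sum fun k _ => ?_
          rw [norm_mul, Complex.norm_real, Real.norm_eq_abs]
          exact mul_le_mul_of_nonneg_left (hbnd z hz k) (abs_nonneg _)
      _ = (∑ k, |q j k|) * τ := by rw [Finset.sum_mul]
      _ ≤ C * τ := mul_le_mul_of_nonneg_right (hqC j) hτ0.le
  have hcP : ∀ z ∈ R, ∀ j, uu (c j) z ∈ P := by
    intro z hz j
    apply hball
    rw [mem_ball_zero_iff]
    calc ‖uu (c j) z‖ ≤ C * τ := hbnd2 z hz j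
      _ ≤ C * (r0 / (2 * C)) := mul_le_mul_of_nonneg_left hτ2 hC0.le
      _ = r0 / 2 := by field_simp
      _ < r0 := by linarith
  have hcS : ∀ z ∈ R, ∀ j, S (m + 1) (uu (c j) z) ≤ d * t / (Fintype.card κ + 1) := by
    intro z hz j
    have h1 := hD.upp (m + 1) (by omega) _ (hcP z hz j)
    have h2 : 2 * ‖uu (c j) z‖ ≤ 2 * C * τ := by
      have := hbnd2 z hz j
      linarith
    have h3 : (2 * ‖uu (c j) z‖) ^ (2 * (m + 1)) ≤ (2 * C * τ) ^ (2 * (m + 1)) :=
      pow_le_pow_left₀ (by positivity) h2 _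
    have h4 : (2 * C * τ) ^ (2 * (m + 1)) = (2 * C) ^ (2 * m + 2) * (τ ^ 2 * t) := by
      rw [ht, mul_pow, ← pow_add]
      congr 1
      ring_nf
    have h5 : τ ^ 2 ≤ D := by nlinarith
    have h6 : (2 * C) ^ (2 * m + 2) * (τ ^ 2 * t) ≤ (2 * C) ^ (2 * m + 2) * (D * t) :=
      mul_le_mul_of_nonneg_left (mul_le_mul_of_nonneg_right h5 ht0.le) (by positivity)
    have h7 : (2 * C) ^ (2 * m + 2) * (D * t) = d * t / (Fintype.card κ + 1) := by
      rw [hDdef]
      field_simp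
    linarith
  have hsub : R ⊆ {z | z ∈ Om P (Sum.elim b c) ∧
      GG (Sum.elim (fun _ => S m) (fun _ => S (m + 1))) (Sum.elim b c) z < t} := by
    intro z hz
    constructor
    · rintro (k | j)
      · exact hz.1 k
      · exact hcP z hz j
    · unfold GG
      rw [Fintype.sum_sum_type]
      simp only [Sum.elim_inl, Sum.elim_inr]
      have h1 : ∑ j, S (m + 1) (uu (c j) z) ≤ d * t := by
        calc ∑ j, S (m + 1) (uu (c j) z) ≤ ∑ _j : κ, d * t / (Fintype.card κ + 1) :=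
              Finset.sum_le_sum fun j _ => hcS z hz j
          _ = Fintype.card κ * (d * t / (Fintype.card κ + 1)) := by
              rw [Finset.sum_const, Finset.card_univ, nsmul_eq_mul]
          _ ≤ d * t := by
              rw [mul_div_assoc', div_le_iff₀ (by positivity)]
              have : 0 < d * t := by positivity
              nlinarith
      have h2 := hz.2
      have h3 : s = t - d * t := by rw [hs]; ring
      linarith
  have hdet : ∀ z ∈ R, (Matrix.of b).det ^ 2 * ∏ k, lap (S m) (uu (b k) z) ≤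
      (MM (fun j => lap ((Sum.elim (fun _ => S m) (fun _ => S (m + 1)) :
        Fin n ⊕ κ → ℂ → ℝ) j)) (Sum.elim b c) z).det := by
    intro z hz
    unfold MM
    refine le_trans (le_of_eq ?_) (det_mat b c _ ?_)
    · rfl
    · rintro (k | j)
      · exact (hD.psh m hm).lap_nonneg _ (hz.1 k)
      · exact (hD.psh (m + 1) (by omega)).lap_nonneg _ (hcP z hz j)
  -- integrals
  set F : (Fin n → ℂ) → ℝ≥0∞ := R'.indicator fun u => ∏ k, ENNReal.ofReal (lap (S m) (u k)) with hF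
  have hFR : ∀ z, R.indicator (fun z => ENNReal.ofReal ((Matrix.of b).det ^ 2 *
      ∏ k, lap (S m) (uu (b k) z))) z =
      F (fun k => uu (b k) z) * ENNReal.ofReal ((Matrix.of b).det ^ 2) := by
    intro z
    by_cases hz : z ∈ R
    · have hz' : (fun k => uu (b k) z) ∈ R' := hz
      rw [indicator_of_mem hz, hF, indicator_of_mem hz', ENNReal.ofReal_mul (sq_nonneg _),
        ENNReal.ofReal_prod_of_nonneg (fun k _ => (hD.psh m hm).lap_nonneg _ (hz.1 k)), mul_comm]
    · have hz' : (fun k => uu (b k) z) ∉ R' := hz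
      rw [indicator_of_notMem hz, hF, indicator_of_notMem hz', zero_mul]
  have hint : ∫⁻ z in R, ENNReal.ofReal ((Matrix.of b).det ^ 2 * ∏ k, lap (S m) (uu (b k) z)) =
      ENNReal.ofReal ((4 * Real.pi * m) ^ n * s ^ n / n.factorial) := by
    rw [← lintegral_indicator hRo.measurableSet]
    simp only [hFR]
    rw [hC2 b hb F, hF, lintegral_indicator hRo'.measurableSet]
    exact hC1 hD n hm hs0 (by linarith)
  have hfinal : (1 - ε) * ((4 * Real.pi * m) ^ n * t ^ n / n.factorial) ≤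
      (4 * Real.pi * m) ^ n * s ^ n / n.factorial := by
    have h1 : (4 * Real.pi * m) ^ n * s ^ n / n.factorial =
        (1 - d) ^ n * ((4 * Real.pi * m) ^ n * t ^ n / n.factorial) := by
      have h2 : s ^ n = (1 - d) ^ n * t ^ n := by rw [hs, mul_pow]
      rw [h2]
      ring
    rw [h1]
    exact mul_le_mul_of_nonneg_right hbern (by positivity)
  calc ENNReal.ofReal ((1 - ε) * ((4 * Real.pi * m) ^ n * t ^ n / n.factorial))
      ≤ ENNReal.ofReal ((4 * Real.pi * m) ^ n * s ^ n / n.factorial) :=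
        ENNReal.ofReal_le_ofReal hfinal
    _ = ∫⁻ z in R, ENNReal.ofReal ((Matrix.of b).det ^ 2 * ∏ k, lap (S m) (uu (b k) z)) :=
        hint.symm
    _ ≤ ∫⁻ z in R, ENNReal.ofReal (MM (fun j => lap ((Sum.elim (fun _ => S m)
          (fun _ => S (m + 1)) : Fin n ⊕ κ → ℂ → ℝ) j)) (Sum.elim b c) z).det :=
        setLIntegral_mono' hRo.measurableSet fun z hz => ENNReal.ofReal_le_ofReal (hdet z hz)
    _ ≤ VV P (Sum.elim (fun _ => S m) (fun _ => S (m + 1))) (Sum.elim b c) t :=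
        lintegral_mono_set hsub

end Pool.Agent.H224R2.Mah
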